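import Mathlib

namespace Pool.Agent.Results.MP_2ae949_nt.Yes

open Filter Topology Finset

theorem wdiff {σ : ℝ} (hσ : 0 < σ) {N : ℕ} (hN : 1 ≤ N) :
    |(N : ℝ) ^ (-σ) - ((N + 1 : ℕ) : ℝ) ^ (-σ)| ≤ σ / N := by
  have h0 : (1 : ℝ) ≤ N := by exact_mod_cast hN
  have h1 : ((N + 1 : ℕ) : ℝ) ^ (-σ) = (N : ℝ) ^ (-σ) * Real.exp (-σ * Real.log (1 + 1 / N)) := by
    have : ((N + 1 : ℕ) : ℝ) = N * (1 + 1 / N) := by push_cast; field_simp
    rw [this, Real.mul_rpow (by positivity) (by positivity),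
      Real.rpow_def_of_pos (by positivity : (0 : ℝ) < 1 + 1 / N), mul_comm (Real.log _)]
  have h2 : (N : ℝ) ^ (-σ) ≤ 1 := Real.rpow_le_one_of_one_le_of_nonpos h0 (by linarith)
  have h3 : 0 < (N : ℝ) ^ (-σ) := by positivity
  have h4 : Real.log (1 + 1 / N) ≤ 1 / N := by
    have := Real.log_le_sub_one_of_pos (by positivity : (0 : ℝ) < 1 + 1 / N)
    linarith
  have h5 : 0 ≤ Real.log (1 + 1 / N) := Real.log_nonneg (by
    have : (0 : ℝ) ≤ 1 / N := by positivity
    linarith)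
  have h6 := Real.add_one_le_exp (-σ * Real.log (1 + 1 / N))
  have h7 : Real.exp (-σ * Real.log (1 + 1 / N)) ≤ 1 := Real.exp_le_one_iff.2 (by nlinarith)
  have h8 : σ * Real.log (1 + 1 / N) ≤ σ / N := by
    rw [div_eq_mul_one_div σ]; exact mul_le_mul_of_nonneg_left h4 hσ.le
  rw [h1, abs_of_nonneg (by nlinarith)]
  nlinarith

theorem upper (f : ℕ → ℂ) (h0 : f 0 = 0) (B : ℝ)
    (hB : ∀ N : ℕ, (N : ℝ) * ‖∑ n ∈ range (N + 1), f n‖ ≤ B) {σ : ℝ} (hσ : 0 < σ)
    (hs : Summable fun n : ℕ => f n * (((n : ℝ) ^ (-σ) : ℝ) : ℂ)) :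
    ‖∑' n : ℕ, f n * (((n : ℝ) ^ (-σ) : ℝ) : ℂ)‖ ≤ 2 * B * σ := by
  have hB0 : 0 ≤ B := by simpa using hB 0
  have hS : ∀ N : ℕ, 1 ≤ N → ‖∑ n ∈ range (N + 1), f n‖ ≤ B / N := by
    intro N hN
    have : (0 : ℝ) < N := by exact_mod_cast hN
    rw [le_div_iff₀ this, mul_comm]; exact hB N
  have key : ∀ N : ℕ, 1 ≤ N → ‖∑ n ∈ range (N + 1), f n * (((n : ℝ) ^ (-σ) : ℝ) : ℂ) -
      (∑ n ∈ range (N + 1), f n) * (((N : ℝ) ^ (-σ) : ℝ) : ℂ)‖ ≤ 2 * B * σ * (1 - 1 / N) := by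
    intro N hN
    induction N, hN using Nat.le_induction with
    | base => simp [sum_range_succ, h0]
    | succ N hN ih =>
      have e : ∑ n ∈ range (N + 1 + 1), f n * (((n : ℝ) ^ (-σ) : ℝ) : ℂ) -
          (∑ n ∈ range (N + 1 + 1), f n) * ((((N + 1 : ℕ) : ℝ) ^ (-σ) : ℝ) : ℂ) =
          (∑ n ∈ range (N + 1), f n * (((n : ℝ) ^ (-σ) : ℝ) : ℂ) -
          (∑ n ∈ range (N + 1), f n) * (((N : ℝ) ^ (-σ) : ℝ) : ℂ)) +
          (∑ n ∈ range (N + 1), f n) *
            ((((N : ℝ) ^ (-σ) - ((N + 1 : ℕ) : ℝ) ^ (-σ) : ℝ)) : ℂ) := by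
        rw [sum_range_succ _ (N + 1), sum_range_succ _ (N + 1), Complex.ofReal_sub]; ring
      rw [e]
      refine (norm_add_le _ _).trans ?_
      rw [norm_mul, Complex.norm_real, Real.norm_eq_abs]
      have h1 : (1 : ℝ) ≤ N := by exact_mod_cast hN
      have h2 : ‖∑ n ∈ range (N + 1), f n‖ * |(N : ℝ) ^ (-σ) - ((N + 1 : ℕ) : ℝ) ^ (-σ)| ≤
          B / N * (σ / N) := mul_le_mul (hS N hN) (wdiff hσ hN) (abs_nonneg _) (by positivity)
      have h3 : B / N * (σ / N) ≤ 2 * B * σ * (1 / N - 1 / ((N + 1 : ℕ) : ℝ)) := by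
        have : B / N * (σ / N) = B * σ * (1 / (N * N)) := by field_simp
        rw [this]
        have : 2 * B * σ * (1 / N - 1 / ((N + 1 : ℕ) : ℝ)) = B * σ * (2 / (N * (N + 1))) := by
          push_cast; field_simp; ring
        rw [this]
        gcongr 1
        rw [div_le_div_iff₀ (by positivity) (by positivity)]
        nlinarith
      linarith
  have t1 := hs.hasSum.tendsto_sum_nat.comp (tendsto_add_atTop_nat 1)
  have t2 : Tendsto (fun N : ℕ => (∑ n ∈ range (N + 1), f n) * (((N : ℝ) ^ (-σ) : ℝ) : ℂ))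
      atTop (𝓝 0) := by
    refine squeeze_zero_norm' ?_ (tendsto_const_div_atTop_nhds_zero_nat B)
    filter_upwards [eventually_ge_atTop 1] with N hN
    rw [norm_mul, Complex.norm_real, Real.norm_eq_abs, abs_of_nonneg (by positivity)]
    have h2 : (N : ℝ) ^ (-σ) ≤ 1 :=
      Real.rpow_le_one_of_one_le_of_nonpos (by exact_mod_cast hN) (by linarith)
    have := hS N hN
    nlinarith [norm_nonneg (∑ n ∈ range (N + 1), f n)]
  have t3 := (t1.sub t2).norm
  rw [sub_zero] at t3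
  refine le_of_tendsto t3 ?_
  filter_upwards [eventually_ge_atTop 1] with N hN
  refine (key N hN).trans ?_
  have : (0 : ℝ) ≤ 1 / N := by positivity
  have : 0 ≤ 2 * B * σ := by positivity
  nlinarith

theorem local_lb (a : ℕ → ℂ) (h0 : a 0 = 1) {t : ℝ} (ht0 : 0 ≤ t) (ht : t ≤ 1 / 2)
    (ha : ∀ k, ‖a (k + 1)‖ ≤ 1 / 4 * t ^ (k + 1)) : 1 ≤ ‖∑' k, a k‖ ^ 2 * (1 - t)⁻¹ := by
  have hg : HasSum (fun k : ℕ => 1 / 4 * t ^ (k + 1)) (1 / 4 * t * (1 - t)⁻¹) := by
    have := (hasSum_geometric_of_lt_one ht0 (by linarith)).mul_left (1 / 4 * t)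
    refine this.congr' ?_ |> fun h => h
    exact Eventually.of_forall fun s => sum_congr rfl fun k _ => by ring
  have hs : Summable fun k => a (k + 1) := Summable.of_norm_bounded hg.summable ha
  rw [((summable_nat_add_iff 1).1 hs).tsum_eq_zero_add, h0]
  have h1 := tsum_of_norm_bounded hg ha
  have h2 : (1 - t)⁻¹ ≤ 2 := by rw [inv_le_comm₀ (by linarith) (by norm_num)]; linarith
  have h3 : 1 - t / 2 ≤ ‖1 + ∑' k, a (k + 1)‖ := by
    have := norm_sub_le (1 + ∑' k, a (k + 1)) (∑' k, a (k + 1))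
    rw [add_sub_cancel_right, norm_one] at this
    nlinarith
  rw [← div_eq_mul_inv, le_div_iff₀ (by linarith)]
  nlinarith

noncomputable def zf (s : ℝ) (hs : s ≠ 0) : ℕ →*₀ ℝ where
  toFun n := (n : ℝ) ^ s
  map_zero' := by simp [hs]
  map_one' := by simp
  map_mul' m n := by push_cast; exact Real.mul_rpow (by positivity) (by positivity)

theorem main (f : ℕ → ℂ) (h0 : f 0 = 0) (h1 : f 1 = 1)
    (hmul : ∀ {m n}, m.Coprime n → f (m * n) = f m * f n)
    (hp : ∀ p, p.Prime → ∃ s ≠ 0, Tendsto (fun K => ∑ k ∈ range K, f (p ^ k)) atTop (𝓝 s))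
    (hS : Tendsto (fun N : ℕ => (N : ℝ) * ‖∑ n ∈ range (N + 1), f n‖) atTop (𝓝 0)) : False := by
  obtain ⟨B, hB⟩ := hS.bddAbove_range
  replace hB : ∀ N : ℕ, (N : ℝ) * ‖∑ n ∈ range (N + 1), f n‖ ≤ B := fun N => hB ⟨N, rfl⟩
  have hf : Tendsto (fun n : ℕ => (n : ℝ) * ‖f n‖) atTop (𝓝 0) := by
    rw [← tendsto_add_atTop_iff_nat 1]
    have t := (hS.comp (tendsto_add_atTop_nat 1)).add (hS.const_mul 2)
    rw [mul_zero, add_zero] at t
    refine squeeze_zero' (Eventually.of_forall fun n => by positivity) ?_ t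
    filter_upwards [eventually_ge_atTop 1] with n hn
    have e : f (n + 1) = ∑ i ∈ range (n + 1 + 1), f i - ∑ i ∈ range (n + 1), f i := by
      rw [sum_range_succ _ (n + 1)]; ring
    have h2 := norm_sub_le (∑ i ∈ range (n + 1 + 1), f i) (∑ i ∈ range (n + 1), f i)
    rw [← e] at h2
    have h3 : (1 : ℝ) ≤ n := by exact_mod_cast hn
    simp only [Function.comp]
    push_cast
    nlinarith [norm_nonneg (∑ i ∈ range (n + 1), f i)]
  obtain ⟨C, hC⟩ := hf.bddAbove_range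
  replace hC : ∀ n : ℕ, (n : ℝ) * ‖f n‖ ≤ C := fun n => hC ⟨n, rfl⟩
  obtain ⟨P, hP⟩ := eventually_atTop.1 (hf.eventually (ge_mem_nhds (by norm_num : (0 : ℝ) < 1 / 4)))
  let g : ℝ → ℕ → ℂ := fun σ n => f n * (((n : ℝ) ^ (-σ) : ℝ) : ℂ)
  have hgn : ∀ (σ : ℝ) (n : ℕ) (D : ℝ), n ≠ 0 → (n : ℝ) * ‖f n‖ ≤ D → ‖g σ n‖ ≤ D * (n : ℝ) ^ (-(1 + σ)) := by
    intro σ n D hn hD
    have hn' : (0 : ℝ) < n := by exact_mod_cast Nat.pos_of_ne_zero hn
    simp only [g]
    rw [norm_mul, Complex.norm_real, Real.norm_eq_abs, abs_of_nonneg (by positivity), neg_add,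
      Real.rpow_add hn', Real.rpow_neg_one, ← mul_assoc]
    gcongr
    rw [← div_eq_mul_inv, le_div_iff₀ hn', mul_comm]; exact hD
  have hpw : ∀ (p k : ℕ) (s : ℝ), ((p ^ k : ℕ) : ℝ) ^ s = ((p : ℝ) ^ s) ^ k := by
    intro p k s
    rw [Nat.cast_pow, ← Real.rpow_natCast, ← Real.rpow_mul (by positivity), mul_comm,
      Real.rpow_mul (by positivity), Real.rpow_natCast]
  have ht : ∀ (p : ℕ) (σ : ℝ), p.Prime → 0 ≤ σ → (p : ℝ) ^ (-(1 + σ)) ≤ 1 / 2 := by
    intro p σ hp hσ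
    have h2 : (2 : ℝ) ≤ p := by exact_mod_cast hp.two_le
    calc (p : ℝ) ^ (-(1 + σ)) ≤ (p : ℝ) ^ (-1 : ℝ) :=
          Real.rpow_le_rpow_of_exponent_le (by linarith) (by linarith)
      _ ≤ 1 / 2 := by
        rw [Real.rpow_neg_one, inv_le_comm₀ (by linarith) (by norm_num)]; linarith
  have bound : ∀ σ : ℝ, 0 < σ → ∏ p ∈ P.primesBelow, ‖∑' k, g σ (p ^ k)‖ ^ 2 ≤
      (2 * B * σ) ^ 2 * ∑' n : ℕ, 1 / (n : ℝ) ^ (1 + σ) := by
    intro σ hσ
    have hz : Summable fun n : ℕ => (n : ℝ) ^ (-(1 + σ)) :=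
      Real.summable_nat_rpow.2 (by linarith)
    have hsum : Summable fun n => ‖g σ n‖ := by
      refine Summable.of_nonneg_of_le (fun n => norm_nonneg _) (fun n => ?_) (hz.mul_left C)
      rcases eq_or_ne n 0 with rfl | hn
      · have : -(1 + σ) ≠ 0 := by linarith
        rw [Nat.cast_zero, Real.zero_rpow this]
        simp [g, h0]
      · exact hgn σ n C hn (hC n)
    have e1 := EulerProduct.eulerProduct (f := g σ) (by simp [g, h1]) (fun {m n} h => by
      simp only [g]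
      rw [hmul h, Nat.cast_mul, Real.mul_rpow (by positivity) (by positivity), Complex.ofReal_mul]
      ring) hsum (by simp [g, h0])
    have e2 := EulerProduct.eulerProduct_completely_multiplicative
      (f := zf (-(1 + σ)) (by linarith)) (by
        refine hz.congr fun n => ?_
        exact (Real.norm_of_nonneg (by show (0 : ℝ) ≤ (n : ℝ) ^ (-(1 + σ)); positivity)).symm)
    have e3 := (e1.norm.pow 2).mul e2
    have e4 : ∏ p ∈ P.primesBelow, ‖∑' k, g σ (p ^ k)‖ ^ 2 ≤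
        ‖∑' n, g σ n‖ ^ 2 * ∑' n, zf (-(1 + σ)) (by linarith) n := by
      refine ge_of_tendsto e3 ?_
      filter_upwards [eventually_ge_atTop P] with N hN
      rw [norm_prod, ← prod_pow, ← prod_mul_distrib]
      have hsub : P.primesBelow ⊆ N.primesBelow := by
        intro p hp
        rw [Nat.mem_primesBelow] at hp ⊢
        exact ⟨by omega, hp.2⟩
      have hinv : ∀ p : ℕ, p.Prime → 1 ≤ (1 - zf (-(1 + σ)) (by linarith) p)⁻¹ := by
        intro p hp
        have a1 := ht p σ hp hσ.le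
        have a2 : (0 : ℝ) ≤ (p : ℝ) ^ (-(1 + σ)) := by positivity
        show 1 ≤ (1 - (p : ℝ) ^ (-(1 + σ)))⁻¹
        rw [one_le_inv₀ (by linarith)]; linarith
      calc ∏ p ∈ P.primesBelow, ‖∑' k, g σ (p ^ k)‖ ^ 2
          ≤ ∏ p ∈ P.primesBelow, ‖∑' k, g σ (p ^ k)‖ ^ 2 *
              (1 - zf (-(1 + σ)) (by linarith) p)⁻¹ :=
            prod_le_prod (fun p _ => by positivity) fun p hp =>
              le_mul_of_one_le_right (by positivity) (hinv p (Nat.prime_of_mem_primesBelow hp))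
        _ ≤ _ := by
            refine prod_le_prod_of_subset_of_one_le hsub (fun p hp => ?_) fun p hp hp' => ?_
            · have := hinv p (Nat.prime_of_mem_primesBelow hp)
              positivity
            · have hpp := Nat.prime_of_mem_primesBelow hp
              have hPp : P ≤ p := by
                by_contra hlt
                exact hp' (Nat.mem_primesBelow.2 ⟨by omega, hpp⟩)
              refine local_lb (fun k => g σ (p ^ k)) (by simp [g, h1])
                (t := (p : ℝ) ^ (-(1 + σ))) (by positivity) (ht p σ hpp hσ.le) fun k => ?_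
              rw [← hpw]
              refine hgn σ _ _ (pow_ne_zero _ hpp.ne_zero) (hP _ (hPp.trans ?_))
              exact Nat.le_self_pow (by omega) p
    refine e4.trans ?_
    have e5 : ∑' n, zf (-(1 + σ)) (by linarith) n = ∑' n : ℕ, 1 / (n : ℝ) ^ (1 + σ) := by
      refine tsum_congr fun n => ?_
      show (n : ℝ) ^ (-(1 + σ)) = _
      rw [Real.rpow_neg (by positivity), one_div]
    rw [e5]
    have e6 := upper f h0 B hB hσ hsum.of_norm
    have e7 : 0 ≤ ∑' n : ℕ, 1 / (n : ℝ) ^ (1 + σ) := tsum_nonneg fun n => by positivity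
    gcongr
  have lim1 : Tendsto (fun σ : ℝ => (2 * B * σ) ^ 2 * ∑' n : ℕ, 1 / (n : ℝ) ^ (1 + σ))
      (𝓝[>] 0) (𝓝 0) := by
    have a1 : Tendsto (fun σ : ℝ => 1 + σ) (𝓝[>] 0) (𝓝[>] 1) := by
      refine tendsto_nhdsWithin_iff.2 ⟨?_, ?_⟩
      · have : Tendsto (fun σ : ℝ => 1 + σ) (𝓝 0) (𝓝 (1 + 0)) :=
          tendsto_const_nhds.add tendsto_id
        rw [add_zero] at this
        exact this.mono_left nhdsWithin_le_nhds
      · filter_upwards [self_mem_nhdsWithin] with σ hσ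
        simpa using hσ
    have a2 := tendsto_sub_mul_tsum_nat_rpow.comp a1
    have a3 : Tendsto (fun σ : ℝ => (2 * B) ^ 2 * σ) (𝓝[>] 0) (𝓝 ((2 * B) ^ 2 * 0)) :=
      (tendsto_id.mono_left nhdsWithin_le_nhds).const_mul _
    have a4 := a3.mul a2
    simp only [mul_zero, zero_mul] at a4
    refine a4.congr fun σ => ?_
    simp only [Function.comp]; ring
  have lim2 : Tendsto (fun σ : ℝ => ∏ p ∈ P.primesBelow, ‖∑' k, g σ (p ^ k)‖ ^ 2) (𝓝[>] 0)
      (𝓝 (∏ p ∈ P.primesBelow, ‖∑' k, f (p ^ k)‖ ^ 2)) := by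
    refine tendsto_finset_prod _ fun p hpm => ?_
    have hpp := Nat.prime_of_mem_primesBelow hpm
    have hC0 : 0 ≤ C := by simpa using hC 0
    refine (Tendsto.norm ?_).pow 2
    refine tendsto_tsum_of_dominated_convergence (bound := fun k => C * (1 / 2) ^ k)
      (summable_geometric_two.mul_left C) (fun k => ?_) ?_
    · have hc : Continuous fun σ : ℝ => g σ (p ^ k) := by
        refine continuous_const.mul (Complex.continuous_ofReal.comp ?_)
        exact continuous_const.rpow continuous_neg fun _ =>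
          Or.inl (by exact_mod_cast pow_ne_zero k hpp.ne_zero)
      have := (hc.tendsto 0).mono_left (nhdsWithin_le_nhds (s := Set.Ioi 0))
      simpa [g] using this
    · filter_upwards [self_mem_nhdsWithin] with σ hσ k
      refine (hgn σ _ C (pow_ne_zero _ hpp.ne_zero) (hC _)).trans ?_
      rw [hpw]
      gcongr
      exact ht p σ hpp (le_of_lt hσ)
  have hpos : 0 < ∏ p ∈ P.primesBelow, ‖∑' k, f (p ^ k)‖ ^ 2 := by
    refine prod_pos fun p hpm => ?_
    have hpp := Nat.prime_of_mem_primesBelow hpm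
    obtain ⟨s, hs0, hs⟩ := hp p hpp
    have hsm : Summable fun k => f (p ^ k) := by
      refine Summable.of_norm_bounded (summable_geometric_two.mul_left C) fun k => ?_
      have := hgn 0 _ C (pow_ne_zero k hpp.ne_zero) (hC _)
      have hC0 : 0 ≤ C := by simpa using hC 0
      simp only [g, neg_zero, Real.rpow_zero, Complex.ofReal_one, mul_one] at this
      refine this.trans ?_
      rw [hpw]
      gcongr
      exact ht p 0 hpp le_rfl
    rw [tendsto_nhds_unique hsm.hasSum.tendsto_sum_nat hs]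
    positivity
  have := le_of_tendsto_of_tendsto lim2 lim1 (by
    filter_upwards [self_mem_nhdsWithin] with σ hσ using bound σ hσ)
  linarith

theorem result (f : ℕ → ℂ) (h1 : f 1 = 1)
    (hmul : ∀ m n : ℕ, 0 < m → 0 < n → m.Coprime n → f (m * n) = f m * f n)
    (hsum : Tendsto (fun N : ℕ => ∑ n ∈ Icc 1 N, f n) atTop (𝓝 0))
    (hp : ∀ p : ℕ, p.Prime →
      ∃ s : ℂ, s ≠ 0 ∧ Tendsto (fun K : ℕ => ∑ k ∈ range K, f (p ^ k)) atTop (𝓝 s)) :
    ∃ c : ℝ, 0 < c ∧ ∃ᶠ x : ℝ in atTop, c ≤ x * ‖∑ n ∈ Icc 1 ⌊x⌋₊, f n‖ := by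
  by_contra hne
  push Not at hne
  let f' : ℕ → ℂ := fun n => if n = 0 then 0 else f n
  have hS : ∀ N : ℕ, ∑ n ∈ range (N + 1), f' n = ∑ n ∈ Icc 1 N, f n := by
    intro N
    induction N with
    | zero => simp [f']
    | succ N ih => rw [sum_range_succ, ih, sum_Icc_succ_top (by omega)]; simp [f']
  refine main f' (by simp [f']) (by simp [f', h1]) (fun {m n} h => ?_) (fun p hpp => ?_) ?_
  · rcases eq_or_ne m 0 with rfl | hm
    · simp [f']
    rcases eq_or_ne n 0 with rfl | hn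
    · simp [f']
    simp only [f', hm, hn, mul_eq_zero, or_self, if_false]
    exact hmul m n (Nat.pos_of_ne_zero hm) (Nat.pos_of_ne_zero hn) h
  · obtain ⟨s, hs0, hs⟩ := hp p hpp
    refine ⟨s, hs0, hs.congr fun K => sum_congr rfl fun k _ => ?_⟩
    simp [f', hpp.ne_zero]
  · simp only [hS]
    refine tendsto_order.2 ⟨fun c hc => Eventually.of_forall fun N => hc.trans_le (by positivity),
      fun c hc => ?_⟩
    have := tendsto_natCast_atTop_atTop (R := ℝ) |>.eventually (hne c hc)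
    simpa using this

end Pool.Agent.Results.MP_2ae949_nt.Yes
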